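import Pool.Agent.U79.GZ.Stm2
import Pool.Agent.U962.GZ.EX1

/-!
# Project GZ, package EX1G (helper452): the twists of `y² = x³ - 4 x² + 2 x` by odd positive `D`
-/

set_option autoImplicit false
set_option linter.style.haveILetI false

open scoped Classical

namespace Pool.Agent.U452.GZ

open Pool.Agent.U115.TP (LSol)
open Pool.Agent.U115.GE hiding cfg
open Pool.Agent.U79.GY (Sp cfg Hc)
open Pool.Agent.U79.GZ
open Pool.Agent.U962.GZ


/-- an odd integer is not divisible by `2` in the `2`-adic integers -/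
theorem odd_unit {D : ℤ} (hD : D % 2 = 1) : ¬ (2 : ℤ_[2]) ∣ (D : ℤ_[2]) := by
  intro h
  have hP : Prime (2 : ℤ_[2]) := by exact_mod_cast PadicInt.prime_p (p := 2)
  obtain ⟨k, hk⟩ : ∃ k : ℤ, D = 1 + 2 * k := ⟨D / 2, by omega⟩
  rw [hk] at h
  push_cast at h
  have h1 : (2 : ℤ_[2]) ∣ 1 := (dvd_add_left (Dvd.intro _ rfl)).1 h
  exact hP.not_isUnit (isUnit_of_dvd_one h1)

theorem no_neg_one_g {D : ℤ} (hD : D % 2 = 1) (h : LSol (8 * D) (8 * D ^ 2) (-1) 2) : False := by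
  obtain ⟨w, e, N, hwe, h⟩ := h
  have hP : Prime (2 : ℤ_[2]) := by exact_mod_cast PadicInt.prime_p (p := 2)
  push_cast at h hwe
  have h2 : (2 : ℤ_[2]) ≠ 0 := two_ne_zero
  by_cases hw : (2 : ℤ_[2]) ∣ w
  · obtain ⟨m, rfl⟩ := hw
    have a1 : N ^ 2 = 2 * (4 * (-2 * m ^ 4 + 4 * D * m ^ 2 * e ^ 2 - D ^ 2 * e ^ 4)) := by
      linear_combination -h
    obtain ⟨n, rfl⟩ := hP.dvd_of_dvd_pow ⟨_, a1⟩
    have a2 : n ^ 2 = 2 * (-2 * m ^ 4 + 4 * D * m ^ 2 * e ^ 2 - D ^ 2 * e ^ 4) := by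
      apply mul_left_cancel₀ h2
      apply mul_left_cancel₀ h2
      linear_combination a1
    obtain ⟨k, rfl⟩ := hP.dvd_of_dvd_pow ⟨_, a2⟩
    have a3 : (D : ℤ_[2]) ^ 2 * e ^ 4 = 2 * (-m ^ 4 + 2 * D * m ^ 2 * e ^ 2 - k ^ 2) := by
      apply mul_left_cancel₀ h2
      linear_combination a2
    rcases hP.dvd_or_dvd ⟨_, a3⟩ with h3 | h3
    · exact odd_unit hD (hP.dvd_of_dvd_pow h3)
    · exact hwe ⟨Dvd.intro _ rfl, hP.dvd_of_dvd_pow h3⟩
  · have hw' : IsUnit w := unit_of (by exact_mod_cast hw)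
    let φ : ℤ_[2] →+* ZMod 8 := (PadicInt.toZModPow 3 : ℤ_[2] →+* ZMod (2 ^ 3))
    obtain ⟨v, hv⟩ := hw'.exists_right_inv
    have b1 : φ w * φ v = 1 := by rw [← map_mul, hv, map_one]
    have b2 := congrArg φ h
    simp only [map_mul, map_add, map_neg, map_pow, map_ofNat, map_one] at b2
    generalize φ w = W at b1 b2
    generalize φ v = V at b1
    generalize φ N = n' at b2
    generalize φ e = E at b2
    generalize φ D = D' at b2
    have key : ∀ W V n' : ZMod 8, W * V = 1 → -1 * n' ^ 2 = W ^ 4 → False := by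
      decide
    refine key W V n' b1 ?_
    have h8 : (8 : ZMod 8) = 0 := rfl
    rw [h8] at b2
    linear_combination b2

theorem no_neg_two_g {D : ℤ} (hD : D % 2 = 1) (h : LSol (8 * D) (8 * D ^ 2) (-2) 2) : False := by
  obtain ⟨w, e, N, hwe, h⟩ := h
  have hP : Prime (2 : ℤ_[2]) := by exact_mod_cast PadicInt.prime_p (p := 2)
  push_cast at h hwe
  have h2 : (2 : ℤ_[2]) ≠ 0 := two_ne_zero
  have a1 : N ^ 2 = 2 * (-(w ^ 4) + 4 * D * w ^ 2 * e ^ 2 - 2 * D ^ 2 * e ^ 4) := by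
    apply mul_left_cancel₀ h2
    linear_combination -h
  obtain ⟨n, rfl⟩ := hP.dvd_of_dvd_pow ⟨_, a1⟩
  have a2 : w ^ 4 = 2 * (2 * D * w ^ 2 * e ^ 2 - D ^ 2 * e ^ 4 - n ^ 2) := by
    apply mul_left_cancel₀ h2
    linear_combination a1
  obtain ⟨u, rfl⟩ := hP.dvd_of_dvd_pow ⟨_, a2⟩
  have a3 : -n ^ 2 = 8 * u ^ 4 - 8 * D * u ^ 2 * e ^ 2 + D ^ 2 * e ^ 4 := by
    apply mul_left_cancel₀ h2
    linear_combination -a2
  have he : IsUnit e := by
    apply unit_of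
    intro h
    exact hwe ⟨Dvd.intro _ rfl, by exact_mod_cast h⟩
  have hD' : IsUnit (D : ℤ_[2]) := unit_of (by exact_mod_cast odd_unit hD)
  let φ : ℤ_[2] →+* ZMod 8 := (PadicInt.toZModPow 3 : ℤ_[2] →+* ZMod (2 ^ 3))
  obtain ⟨v, hv⟩ := (hD'.mul (he.pow 2)).exists_right_inv
  have b1 : φ (D * e ^ 2) * φ v = 1 := by rw [← map_mul, hv, map_one]
  have b2 : φ (-n ^ 2) = φ (8 * u ^ 4 - 8 * D * u ^ 2 * e ^ 2 + (D * e ^ 2) ^ 2) := by
    rw [a3]
    congr 1
    ring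
  rw [map_add, map_pow φ (D * e ^ 2)] at b2
  generalize φ (D * e ^ 2) = E at b1 b2
  simp only [map_mul, map_sub, map_neg, map_pow, map_ofNat] at b2
  generalize φ v = V at b1
  generalize φ n = n' at b2
  generalize φ u = U at b2
  generalize φ D = D' at b2
  generalize φ e = e' at b2
  have key : ∀ E V n' : ZMod 8, E * V = 1 → -n' ^ 2 = E ^ 2 → False := by
    decide
  refine key E V n' b1 ?_
  have h8 : (8 : ZMod 8) = 0 := rfl
  rw [h8] at b2
  linear_combination b2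

theorem qs_aux {q D k c s : ℤ} (hq : q % 8 = 7) (hk : k ≠ 0) (h1 : c ^ 2 + s ^ 2 = 2 * k ^ 2)
    (h2 : (D * (c - 2 * k) * k) % 8 = 1) [Fact (Nat.Prime 2)] :
    Qs ℚ_[2] (-4 * D) (2 * D ^ 2) q := by
  have hq0 : (q : ℚ_[2]) ≠ 0 := by
    have : q ≠ 0 := by rintro rfl; norm_num at hq
    exact_mod_cast this
  have hk0 : (k : ℚ_[2]) ≠ 0 := by exact_mod_cast hk
  obtain ⟨r, hr⟩ := sq_two (a := -q) (by omega)
  obtain ⟨m, hm⟩ := sq_two h2
  push_cast at hr hm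
  have h1' : (c : ℚ_[2]) ^ 2 + (s : ℚ_[2]) ^ 2 = 2 * (k : ℚ_[2]) ^ 2 := by exact_mod_cast h1
  have hr0 : r ≠ 0 := by
    rintro rfl
    apply hq0
    linear_combination -hr
  have hr2 : r ^ 2 = -q := by rw [hr]; ring
  have hr4 : r ^ 4 = q * q := by
    rw [show r ^ 4 = (r ^ 2) ^ 2 by ring, hr2]; ring
  have hm2 : m ^ 2 = D * (c - 2 * k) * k := by rw [hm]; ring
  have hm4 : m ^ 4 = (D * (c - 2 * k) * k) ^ 2 := by
    rw [show m ^ 4 = (m ^ 2) ^ 2 by ring, hm2]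
  refine ⟨r * D * k * s, m, r * k, Or.inr (mul_ne_zero hr0 hk0), ?_⟩
  have e1 : (r * D * k * s) ^ 2 = -q * (D * k * s) ^ 2 := by
    rw [← hr2]; ring
  have e2 : (r * k) ^ 2 = -q * k ^ 2 := by rw [← hr2]; ring
  have e3 : (r * k) ^ 4 = q * (q * k ^ 4) := by rw [mul_pow, hr4]; ring
  rw [e1, e2, e3, hm2, hm4]
  push_cast
  have e4 : (2 : ℚ_[2]) * D ^ 2 / q * (q * (q * k ^ 4)) = 2 * D ^ 2 * (q * k ^ 4) := by
    field_simp
  rw [e4]
  linear_combination (-(q : ℚ_[2]) * D ^ 2 * k ^ 2) * h1'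

theorem qs_seven_g {q D : ℤ} (hq : q % 8 = 7) (hD : D % 2 = 1) [Fact (Nat.Prime 2)] :
    Qs ℚ_[2] (-4 * D) (2 * D ^ 2) q := by
  have h : D % 8 = 1 ∨ D % 8 = 3 ∨ D % 8 = 5 ∨ D % 8 = 7 := by omega
  rcases h with h | h | h | h
  · exact qs_aux (k := 5) (c := 7) (s := 1) hq (by norm_num) (by norm_num) (by omega)
  · exact qs_aux (k := 5) (c := -7) (s := 1) hq (by norm_num) (by norm_num) (by omega)
  · exact qs_aux (k := 1) (c := -1) (s := 1) hq (by norm_num) (by norm_num) (by omega)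
  · exact qs_aux (k := 1) (c := 1) (s := 1) hq (by norm_num) (by norm_num) (by omega)

theorem vs_eight {v : ℤ} (h : Vs 8 v) : v = 1 ∨ v = -1 ∨ v = 2 ∨ v = -2 :=
  of_two h.1 fun l hl hld => dvd_two (n := 3) hl (by exact_mod_cast h.2 l hl hld)

theorem s1_g {D : ℕ} (hD : D % 2 = 1) :
    {v : ℤ | Vs 8 v ∧ LS (-4 * D) (2 * D ^ 2) 8 v}.ncard ≤ 2 := by
  have hsub : {v : ℤ | Vs 8 v ∧ LS (-4 * D) (2 * D ^ 2) 8 v} ⊆ {1, 2} := by
    rintro d ⟨hv, hr, -⟩
    have hpos : 0 < d := by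
      obtain ⟨N, M, e, hne, h⟩ := hr
      by_contra hneg
      have hd0 : (d : ℝ) < 0 := by
        have h1 : d < 0 := lt_of_le_of_ne (not_lt.1 hneg) hv.1.ne_zero
        exact_mod_cast h1
      have hDp : (0 : ℝ) < D := by
        have : 0 < D := by omega
        exact_mod_cast this
      push_cast at h
      have h2 : (2 : ℝ) * D ^ 2 / d < 0 := div_neg_of_pos_of_neg (by positivity) hd0
      have h3 : 0 ≤ (D : ℝ) * (M * e) ^ 2 := by positivity
      have h4 : -4 * (D : ℝ) * M ^ 2 * e ^ 2 = -4 * (D * (M * e) ^ 2) := by ring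
      rw [h4] at h
      have h5 : (d : ℝ) * M ^ 4 ≤ 0 := mul_nonpos_of_nonpos_of_nonneg hd0.le (by positivity)
      have h6 : (2 : ℝ) * D ^ 2 / d * e ^ 4 ≤ 0 := mul_nonpos_of_nonpos_of_nonneg h2.le (by positivity)
      have hN := sq_nonneg N
      have hM : M = 0 := by
        by_contra hM
        have : (d : ℝ) * M ^ 4 < 0 := mul_neg_of_neg_of_pos hd0 (by positivity)
        linarith
      have he : e = 0 := by
        by_contra he
        have : (2 : ℝ) * D ^ 2 / d * e ^ 4 < 0 := mul_neg_of_neg_of_pos h2 (by positivity)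
        linarith
      exact hne.elim (fun h => h hM) (fun h => h he)
    rcases vs_eight hv with h1 | h1 | h1 | h1
    · left; exact h1
    · omega
    · right; exact h1
    · omega
  calc _ ≤ ({1, 2} : Set ℤ).ncard := Set.ncard_le_ncard hsub (Set.toFinite _)
    _ = 2 := Set.ncard_pair (by norm_num)

theorem s2_g {D : ℕ} (hD : D % 2 = 1) :
    {v : ℤ | Vs 8 v ∧ LS (-2 * (-4 * D)) (((-4) ^ 2 - 4 * 2) * D ^ 2) 8 v}.ncard ≤ 2 := by
  have hsub : {v : ℤ | Vs 8 v ∧ LS (-2 * (-4 * D)) (((-4) ^ 2 - 4 * 2) * D ^ 2) 8 v} ⊆ {1, 2} := by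
    rintro d ⟨hv, -, hp⟩
    haveI : Fact (Nat.Prime 2) := ⟨Nat.prime_two⟩
    have h2 := lsol_of_qs hv.1 (hp 2 (by norm_num))
    rw [show (-2 * (-4 * (D : ℤ))) = 8 * D by ring,
      show (((-4) ^ 2 - 4 * 2) * (D : ℤ) ^ 2) = 8 * D ^ 2 by ring] at h2
    have hD' : (D : ℤ) % 2 = 1 := by omega
    rcases vs_eight hv with h1 | h1 | h1 | h1
    · left; exact h1
    · rw [h1] at h2
      exact (no_neg_one_g hD' h2).elim
    · right; exact h1
    · rw [h1] at h2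
      exact (no_neg_two_g hD' h2).elim
  calc _ ≤ ({1, 2} : Set ℤ).ncard := Set.ncard_le_ncard hsub (Set.toFinite _)
    _ = 2 := Set.ncard_pair (by norm_num)

theorem t_EX1G : Pool.Agent.U79.GZ.S_EX1G := by
  intro D hD
  refine ⟨⟨by norm_num, by norm_num, by norm_num, by norm_num⟩,
    not_sq 1 (by norm_num) (by norm_num) (by norm_num),
    not_sq 2 (by norm_num) (by norm_num) (by norm_num), s1_g hD, s2_g hD, ?_, ?_⟩
  · intro g _
    unfold ZZ
    rw [Finset.mem_image]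
    refine ⟨(1, ∅), ?_, by simp⟩
    rw [Finset.mem_product]
    exact ⟨by simp, by simp⟩
  · intro q hq
    obtain ⟨hqp, hq⟩ := hq
    unfold Hc cfg at hq
    rw [Finset.mem_filter] at hq
    obtain ⟨-, hc, hj, -⟩ := hq
    have hv : vv 8 (fun _ => 1) q = 1 := by
      unfold vv
      apply Finset.prod_eq_one
      intro g _
      rw [if_pos]
      exact ⟨1, by norm_num⟩
    rw [hv, mul_one]
    have hodd : (q % (4 * 8)) % 2 = 1 := by
      by_contra h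
      have h2 : 2 ∣ q % (4 * 8) := Nat.dvd_of_mod_eq_zero (by omega)
      have h3 : 2 ∣ Nat.gcd (q % (4 * 8)) (4 * 8) := Nat.dvd_gcd h2 (by norm_num)
      rw [hc] at h3
      omega
    rw [jacobiSym.at_two (Nat.odd_iff.mpr hodd), ZMod.χ₈_nat_eq_if_mod_eight,
      if_neg (by omega)] at hj
    have h8 : (q % (4 * 8)) % 8 = 1 ∨ (q % (4 * 8)) % 8 = 7 := by
      by_contra h
      rw [if_neg h] at hj
      norm_num at hj
    refine ⟨qs_sq ⟨Real.sqrt q, ?_⟩, ?_⟩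
    · rw [Real.mul_self_sqrt (Nat.cast_nonneg q)]
      push_cast
      rfl
    · intro l hl hl8
      have hl2 : l = 2 := dvd_two (n := 3) hl.out (by exact_mod_cast hl8)
      subst hl2
      rcases h8 with h8 | h8
      · exact qs_sq (sq_two (by omega))
      · exact qs_seven_g (by omega) (by omega)

end Pool.Agent.U452.GZ
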